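import Pool.Agent.H83.V.TW

/-!
Row WYS of board lvw: from blocks with many points of `P` to points `n` such that `n / p` is in
`P` for many primes `p` of one dyadic block (pure counting).
-/

set_option autoImplicit false

open Finset

namespace Pool.Agent.H82.W

open Pool.Agent.H83.V
open Pool.Agent.H24.T2 (Pset)
open Pool.Agent.H67.AG (avgP)

lemma mem_P {k p : ℕ} (hp : p ∈ Pset 2 k) : 2 ^ k < p ∧ p ≤ 2 ^ (k + 1) := by
  rw [Pset, mem_filter, mem_Ioc] at hp
  exact hp.1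

/-- harmonic sum over two dyadic blocks -/
lemma harm (a : ℕ) : ∑ y ∈ (Ico (2 ^ a) (2 ^ (a + 2)) : Finset ℕ), (1 : ℝ) / (y : ℝ) ≤ 2 := by
  have h1 : ∀ b : ℕ, ∑ y ∈ (Ico (2 ^ b) (2 ^ (b + 1)) : Finset ℕ), (1 : ℝ) / (y : ℝ) ≤ 1 := by
    intro b
    have hb : (0 : ℝ) < 2 ^ b := by positivity
    calc ∑ y ∈ (Ico (2 ^ b) (2 ^ (b + 1)) : Finset ℕ), (1 : ℝ) / (y : ℝ)
        ≤ ∑ _y ∈ (Ico (2 ^ b) (2 ^ (b + 1)) : Finset ℕ), (1 : ℝ) / 2 ^ b := by
          apply sum_le_sum
          intro y hy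
          rw [mem_Ico] at hy
          have hy1 : (2 : ℝ) ^ b ≤ (y : ℝ) := by exact_mod_cast hy.1
          exact one_div_le_one_div_of_le hb hy1
      _ = 1 := by
          rw [sum_const, Nat.card_Ico, nsmul_eq_mul]
          have e : 2 ^ (b + 1) - 2 ^ b = 2 ^ b := by rw [pow_succ]; omega
          rw [e]
          push_cast
          field_simp
  have h2 : (Ico (2 ^ a) (2 ^ (a + 2)) : Finset ℕ) = Ico (2 ^ a) (2 ^ (a + 1)) ∪
      Ico (2 ^ (a + 1)) (2 ^ (a + 2)) := by
    rw [Ico_union_Ico_eq_Ico]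
    · exact Nat.pow_le_pow_right (by norm_num) (by omega)
    · exact Nat.pow_le_pow_right (by norm_num) (by omega)
  rw [h2, sum_union (Ico_disjoint_Ico_consecutive _ _ _)]
  have := h1 a
  have := h1 (a + 1)
  linarith

/-- the block `[n p, n p + p)` -/
lemma blk (n p : ℕ) (hn : 0 < n) (hp : 0 < p) :
    (1 : ℝ) / (n + 1) ≤ ∑ y ∈ Ico (n * p) ((n + 1) * p), (1 : ℝ) / (y : ℝ) := by
  have hp' : (0 : ℝ) < p := by exact_mod_cast hp
  calc (1 : ℝ) / (n + 1) = ∑ _y ∈ Ico (n * p) ((n + 1) * p), (1 : ℝ) / ((n + 1) * p) := by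
        rw [sum_const, Nat.card_Ico, nsmul_eq_mul]
        have e : (n + 1) * p - n * p = p := by rw [add_mul, one_mul]; omega
        rw [e]
        field_simp
    _ ≤ ∑ y ∈ Ico (n * p) ((n + 1) * p), (1 : ℝ) / (y : ℝ) := by
        apply sum_le_sum
        intro y hy
        rw [mem_Ico] at hy
        have h1 : 0 < n * p := Nat.mul_pos hn hp
        have h2 : (0 : ℝ) < (y : ℝ) := by exact_mod_cast lt_of_lt_of_le h1 hy.1
        apply one_div_le_one_div_of_le h2
        have h3 : (y : ℝ) ≤ (((n + 1) * p : ℕ) : ℝ) := by exact_mod_cast hy.2.le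
        push_cast at h3
        exact h3

open Classical in
/-- one prime, one block -/
lemma one_prime (P : ℕ → Prop) (k l p : ℕ) (hp : p ∈ Pset 2 k) :
    (((Ico (2 ^ l) (2 ^ (l + 1))).filter P).card : ℝ) / 2 ^ (l + 1) ≤
      ∑ y ∈ (Ico (2 ^ (l + k)) (2 ^ (l + k + 2)) : Finset ℕ),
        (1 : ℝ) / (y : ℝ) * (if y / p ∈ (Ico (2 ^ l) (2 ^ (l + 1))).filter P then 1 else 0) := by
  obtain ⟨hp1, hp2⟩ := mem_P hp
  have hp0 : 0 < p := lt_of_le_of_lt (Nat.zero_le _) hp1
  set W := (Ico (2 ^ l) (2 ^ (l + 1))).filter P with hW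
  have hdisj : ∀ n ∈ W, ∀ n' ∈ W, n ≠ n' →
      Disjoint (Ico (n * p) ((n + 1) * p)) (Ico (n' * p) ((n' + 1) * p)) := by
    intro n _ n' _ hne
    rw [disjoint_left]
    intro y hy hy'
    rw [mem_Ico] at hy hy'
    apply hne
    have h1 : y / p = n := Nat.div_eq_of_lt_le hy.1 hy.2
    have h2 : y / p = n' := Nat.div_eq_of_lt_le hy'.1 hy'.2
    rw [← h1, h2]
  have hsub : W.biUnion (fun n => Ico (n * p) ((n + 1) * p)) ⊆
      (Ico (2 ^ (l + k)) (2 ^ (l + k + 2))).filter (fun y => y / p ∈ W) := by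
    intro y hy
    rw [mem_biUnion] at hy
    obtain ⟨n, hn, hy⟩ := hy
    rw [mem_Ico] at hy
    have h1 : y / p = n := Nat.div_eq_of_lt_le hy.1 hy.2
    have hn' := hn
    rw [hW, mem_filter, mem_Ico] at hn'
    rw [mem_filter, mem_Ico, h1]
    refine ⟨⟨?_, ?_⟩, hn⟩
    · calc 2 ^ (l + k) = 2 ^ l * 2 ^ k := pow_add _ _ _
        _ ≤ n * p := Nat.mul_le_mul hn'.1.1 hp1.le
        _ ≤ y := hy.1
    · calc y < (n + 1) * p := hy.2
        _ ≤ 2 ^ (l + 1) * 2 ^ (k + 1) := Nat.mul_le_mul hn'.1.2 hp2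
        _ = 2 ^ (l + k + 2) := by ring
  calc (W.card : ℝ) / 2 ^ (l + 1) = ∑ _n ∈ W, (1 : ℝ) / 2 ^ (l + 1) := by
        rw [sum_const, nsmul_eq_mul]; ring
    _ ≤ ∑ n ∈ W, ∑ y ∈ Ico (n * p) ((n + 1) * p), (1 : ℝ) / (y : ℝ) := by
        apply sum_le_sum
        intro n hn
        rw [hW, mem_filter, mem_Ico] at hn
        have hn0 : 0 < n := lt_of_lt_of_le (by positivity) hn.1.1
        refine le_trans ?_ (blk n p hn0 hp0)
        apply one_div_le_one_div_of_le (by positivity)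
        have : ((n + 1 : ℕ) : ℝ) ≤ ((2 ^ (l + 1) : ℕ) : ℝ) := by exact_mod_cast hn.1.2
        push_cast at this
        exact this
    _ = ∑ y ∈ W.biUnion (fun n => Ico (n * p) ((n + 1) * p)), (1 : ℝ) / (y : ℝ) := by
        rw [sum_biUnion hdisj]
    _ ≤ ∑ y ∈ (Ico (2 ^ (l + k)) (2 ^ (l + k + 2))).filter (fun y => y / p ∈ W),
          (1 : ℝ) / (y : ℝ) := by
        apply sum_le_sum_of_subset_of_nonneg hsub
        intro y _ _
        positivity
    _ = _ := by
        rw [sum_filter]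
        apply sum_congr rfl
        intro y _
        split_ifs <;> simp

open Classical in
/-- one block -/
lemma one_block (P : ℕ → Prop) (θ : ℝ) (k l : ℕ) (hθ : 0 < θ) (hne : (Pset 2 k).Nonempty)
    (hW : θ / 16 * 2 ^ l ≤ (((Ico (2 ^ l) (2 ^ (l + 1))).filter P).card : ℝ)) :
    θ / 64 ≤ ∑ y ∈ (Ico (2 ^ (l + k)) (2 ^ (l + k + 2))).filter (fun n : ℕ =>
      θ / 128 ≤ avgP 2 k fun p => if P (n / p) then 1 else 0), (1 : ℝ) / (y : ℝ) := by
  set W := (Ico (2 ^ l) (2 ^ (l + 1))).filter P with hWdef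
  set Y := Ico (2 ^ (l + k)) (2 ^ (l + k + 2)) with hY
  have hN : (0 : ℝ) < ((Pset 2 k).card : ℝ) := by exact_mod_cast hne.card_pos
  have h1 : θ / 32 ≤ (W.card : ℝ) / 2 ^ (l + 1) := by
    rw [le_div_iff₀ (by positivity), pow_succ]
    calc θ / 32 * (2 ^ l * 2) = θ / 16 * 2 ^ l := by ring
      _ ≤ _ := hW
  -- average over the primes
  have h2 : θ / 32 ≤ ∑ y ∈ Y, (1 : ℝ) / (y : ℝ) *
      avgP 2 k (fun p => if y / p ∈ W then 1 else 0) := by
    have e : ∑ y ∈ Y, (1 : ℝ) / (y : ℝ) * avgP 2 k (fun p => if y / p ∈ W then 1 else 0) =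
        (∑ p ∈ Pset 2 k, ∑ y ∈ Y, (1 : ℝ) / (y : ℝ) * (if y / p ∈ W then 1 else 0)) /
          ((Pset 2 k).card : ℝ) := by
      rw [sum_comm, sum_div]
      apply sum_congr rfl
      intro y _
      rw [avgP, ← mul_sum, mul_div_assoc]
    rw [e, le_div_iff₀ hN]
    calc θ / 32 * ((Pset 2 k).card : ℝ) = ∑ _p ∈ Pset 2 k, θ / 32 := by
          rw [sum_const, nsmul_eq_mul]; ring
      _ ≤ _ := by
          apply sum_le_sum
          intro p hp
          exact le_trans h1 (one_prime P k l p hp)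
  have hav : ∀ y : ℕ, avgP 2 k (fun p => if y / p ∈ W then 1 else 0) ≤
      avgP 2 k (fun p => if P (y / p) then 1 else 0) := by
    intro y
    rw [avgP, avgP]
    apply div_le_div_of_nonneg_right _ hN.le
    apply sum_le_sum
    intro p _
    by_cases h : y / p ∈ W
    · have h' : P (y / p) := by
        rw [hWdef, mem_filter] at h
        exact h.2
      simp [h, h']
    · rw [if_neg h]
      split_ifs <;> norm_num
  have hav1 : ∀ y : ℕ, avgP 2 k (fun p => if y / p ∈ W then 1 else 0) ≤ 1 := by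
    intro y
    rw [avgP, div_le_one hN]
    calc ∑ p ∈ Pset 2 k, (if y / p ∈ W then (1 : ℝ) else 0) ≤ ∑ _p ∈ Pset 2 k, (1 : ℝ) := by
          apply sum_le_sum
          intro p _
          split_ifs <;> norm_num
      _ = _ := by simp
  have hsplit := sum_filter_add_sum_filter_not Y (fun n : ℕ =>
      θ / 128 ≤ avgP 2 k fun p => if P (n / p) then 1 else 0)
      (fun y => (1 : ℝ) / (y : ℝ) * avgP 2 k (fun p => if y / p ∈ W then 1 else 0))
  rw [← hsplit] at h2
  have h3 : ∑ y ∈ Y.filter (fun n : ℕ =>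
      θ / 128 ≤ avgP 2 k fun p => if P (n / p) then 1 else 0),
      (1 : ℝ) / (y : ℝ) * avgP 2 k (fun p => if y / p ∈ W then 1 else 0) ≤
      ∑ y ∈ Y.filter (fun n : ℕ =>
      θ / 128 ≤ avgP 2 k fun p => if P (n / p) then 1 else 0), (1 : ℝ) / (y : ℝ) := by
    apply sum_le_sum
    intro y _
    calc (1 : ℝ) / (y : ℝ) * _ ≤ (1 : ℝ) / (y : ℝ) * 1 :=
          mul_le_mul_of_nonneg_left (hav1 y) (by positivity)
      _ = _ := mul_one _
  have h4 : ∑ y ∈ Y.filter (fun n : ℕ =>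
      ¬ θ / 128 ≤ avgP 2 k fun p => if P (n / p) then 1 else 0),
      (1 : ℝ) / (y : ℝ) * avgP 2 k (fun p => if y / p ∈ W then 1 else 0) ≤ 2 * (θ / 128) := by
    calc _ ≤ ∑ y ∈ Y.filter (fun n : ℕ =>
          ¬ θ / 128 ≤ avgP 2 k fun p => if P (n / p) then 1 else 0),
          (1 : ℝ) / (y : ℝ) * (θ / 128) := by
          apply sum_le_sum
          intro y hy
          rw [mem_filter, not_le] at hy
          exact mul_le_mul_of_nonneg_left (le_trans (hav y) hy.2.le) (by positivity)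
      _ ≤ ∑ y ∈ Y, (1 : ℝ) / (y : ℝ) * (θ / 128) := by
          apply sum_le_sum_of_subset_of_nonneg (filter_subset _ _)
          intro y _ _
          positivity
      _ = (∑ y ∈ Y, (1 : ℝ) / (y : ℝ)) * (θ / 128) := by rw [sum_mul]
      _ ≤ 2 * (θ / 128) := by
          apply mul_le_mul_of_nonneg_right _ (by positivity)
          exact harm (l + k)
  linarith

theorem pf_WYS : T_WYS := by
  classical
  intro P θ k hθ hne S x y hx hS
  set G : ℕ → Prop := fun n : ℕ => θ / 128 ≤ avgP 2 k fun p => if P (n / p) then 1 else 0 with hG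
  have h1 : θ / 64 * (S.card : ℝ) ≤ ∑ l ∈ S, ∑ n ∈ (Icc x y).filter G,
      if n ∈ Ico (2 ^ (l + k)) (2 ^ (l + k + 2)) then (1 : ℝ) / (n : ℝ) else 0 := by
    calc θ / 64 * (S.card : ℝ) = ∑ _l ∈ S, θ / 64 := by
          rw [sum_const, nsmul_eq_mul]; ring
      _ ≤ _ := by
          apply sum_le_sum
          intro l hl
          obtain ⟨ha, hb, hc⟩ := hS l hl
          refine le_trans (one_block P θ k l hθ hne hc) ?_
          rw [← sum_filter]
          apply sum_le_sum_of_subset_of_nonneg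
          · intro n hn
            rw [mem_filter] at hn
            rw [mem_filter, mem_filter]
            refine ⟨⟨?_, hn.2⟩, hn.1⟩
            have h2 := hn.1
            rw [mem_Ico] at h2
            rw [mem_Icc]
            refine ⟨?_, by omega⟩
            refine le_trans ha (le_trans ?_ h2.1)
            exact Nat.pow_le_pow_right (by norm_num) (by omega)
          · intro n _ _
            positivity
  have h2 : ∑ l ∈ S, ∑ n ∈ (Icc x y).filter G,
      (if n ∈ Ico (2 ^ (l + k)) (2 ^ (l + k + 2)) then (1 : ℝ) / (n : ℝ) else 0) ≤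
      ∑ n ∈ (Icc x y).filter G, 2 * ((1 : ℝ) / (n : ℝ)) := by
    rw [sum_comm]
    apply sum_le_sum
    intro n hn
    rw [mem_filter, mem_Icc] at hn
    have hn0 : n ≠ 0 := by omega
    rw [← sum_filter, sum_const, nsmul_eq_mul]
    apply mul_le_mul_of_nonneg_right _ (by positivity)
    have h3 : (S.filter fun l => n ∈ Ico (2 ^ (l + k)) (2 ^ (l + k + 2))) ⊆
        {Nat.log 2 n - k, Nat.log 2 n - k - 1} := by
      intro l hl
      rw [mem_filter, mem_Ico] at hl
      have h4 : l + k ≤ Nat.log 2 n := Nat.le_log_of_pow_le (by norm_num) hl.2.1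
      have h5 : Nat.log 2 n < l + k + 2 := Nat.log_lt_of_lt_pow hn0 hl.2.2
      rw [mem_insert, mem_singleton]
      omega
    have h6 : (S.filter fun l => n ∈ Ico (2 ^ (l + k)) (2 ^ (l + k + 2))).card ≤ 2 :=
      le_trans (card_le_card h3) card_le_two
    exact_mod_cast h6
  rw [← mul_sum] at h2
  have h3 := le_trans h1 h2
  have h4 : θ / 64 * (S.card : ℝ) = 2 * (θ / 128 * S.card) := by ring
  rw [h4] at h3
  exact le_of_mul_le_mul_left h3 (by norm_num)

end Pool.Agent.H82.W
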